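import Pool.Agent.Helper60.Wilf.Three

set_option autoImplicit false

namespace Pool.Agent.Results.MP_05ec03_nt.ConductorThreeM

open Pool.Agent.Helper60.Wilf

/-- Let `S` be a numerical semigroup with Frobenius number `F`, genus `g`, multiplicity `m` and set
of minimal generators `A`, and assume `F + 1 ≤ 3 m`. If equality `F + 1 = |A| (F + 1 - g)` holds in
Wilf's inequality, then `|A| = 2`, or `|A| = m` and the minimal generators are
`m, K m + 1, …, K m + (m - 1)` for some natural number `K`. -/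
theorem result :
    ∀ (S : AddSubmonoid ℕ) (F g m : ℕ) (A : Finset ℕ),
      F ∉ S →
      (∀ n : ℕ, F < n → n ∈ S) →
      Set.ncard {n : ℕ | n ∉ S} = g →
      (∀ a : ℕ, a ∈ A ↔
        (a ∈ S ∧ a ≠ 0 ∧ ∀ x ∈ S, ∀ y ∈ S, x + y = a → x = 0 ∨ y = 0)) →
      m ∈ S → m ≠ 0 → (∀ x ∈ S, x ≠ 0 → m ≤ x) →
      F + 1 ≤ 3 * m →
      F + 1 = A.card * (F + 1 - g) →
        (A.card = 2 ∨
          (A.card = m ∧ ∃ K : ℕ,
            A = insert m ((Finset.Icc 1 (m - 1)).image (fun j => K * m + j)))) := by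
  intro S F g m A hF hall hg hA hm hm0 hmin hc3 hW
  classical
  have H : Sg S (F + 1) m := ⟨fun n hn => hall n (by omega), hm, by omega, hmin⟩
  have hset : {n : ℕ | n ∉ S} = ((Finset.Ico 0 (F + 1)).filter (fun n => ¬ n ∈ S) : Finset ℕ) := by
    ext n
    rw [Set.mem_ofPred_eq, Finset.mem_coe, Finset.mem_filter, Finset.mem_Ico]
    constructor
    · intro hn
      refine ⟨⟨Nat.zero_le _, ?_⟩, hn⟩
      by_contra hc
      exact hn (hall n (by omega))
    · rintro ⟨-, hn⟩; exact hn
  rw [hset, Set.ncard_coe_finset] at hg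
  have hcard : (elF S 0 (F + 1)).card + g = F + 1 := by
    rw [← hg]
    unfold elF
    rw [Finset.card_filter_add_card_filter_not, Nat.card_Ico]
    omega
  refine main H hc3 (by omega) hA ?_
  rw [show (elF S 0 (F + 1)).card = F + 1 - g by omega]
  exact hW

end Pool.Agent.Results.MP_05ec03_nt.ConductorThreeM
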