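import Pool.Agent.WLF.All
import Pool.Agent.Helper82.Wilf.ThreeD

set_option autoImplicit false

namespace Pool.Agent.Results.MP_05ec03_nt.FixedEmbeddingDimension

open Pool.Agent.Helper60.Wilf Pool.Agent.Helper82.Wilf

theorem two_pow_lt {E x y : ℕ} (h : (2 ^ E + 1) * x ≤ 2 ^ E * y) (hx : 0 < x) : x < y := by
  by_contra hc
  have h2 : 2 ^ E * y ≤ 2 ^ E * x := Nat.mul_le_mul_left _ (not_lt.mp hc)
  have h3 : (2 ^ E + 1) * x = 2 ^ E * x + x := by ring
  omega

/-- Let `S ≠ ℕ` be a numerical semigroup with Frobenius number `F`, genus `g`, multiplicity `m` and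
`d = |A|` minimal generators. Assume `F ≥ 2^(2 (d+3)^4)` or `F + m ≥ (d - 1) 2^(2 (d+3)^3) m`.
If `3 ≤ d ≠ m`, then `d (F + 1 - g) ≥ (1 + 2^(-(2 (d+3)^3 + 1))) (F + 1)`, so Wilf's inequality holds
and is strict. If equality `F + 1 = d (F + 1 - g)` holds, then `d = 2`, or `d = m` and the minimal
generators are `m, K m + 1, …, K m + (m - 1)` for some natural number `K`. -/
theorem result :
    ∀ (S : AddSubmonoid ℕ) (F g m : ℕ) (A : Finset ℕ),
      F ∉ S →
      (∀ n : ℕ, F < n → n ∈ S) →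
      Set.ncard {n : ℕ | n ∉ S} = g →
      (∀ a : ℕ, a ∈ A ↔
        (a ∈ S ∧ a ≠ 0 ∧ ∀ x ∈ S, ∀ y ∈ S, x + y = a → x = 0 ∨ y = 0)) →
      m ∈ S → m ≠ 0 → (∀ x ∈ S, x ≠ 0 → m ≤ x) →
      (2 ^ (2 * (A.card + 3) ^ 4) ≤ F ∨
        (A.card - 1) * 2 ^ (2 * (A.card + 3) ^ 3) * m ≤ F + m) →
      (3 ≤ A.card → A.card ≠ m →
        (2 ^ (2 * (A.card + 3) ^ 3 + 1) + 1) * (F + 1) ≤
          2 ^ (2 * (A.card + 3) ^ 3 + 1) * (A.card * (F + 1 - g))) ∧
      (F + 1 = A.card * (F + 1 - g) →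
        (A.card = 2 ∨
          (A.card = m ∧ ∃ K : ℕ,
            A = insert m ((Finset.Icc 1 (m - 1)).image (fun j => K * m + j))))) := by
  intro S F g m A hF hall hg hA hm hm0 hmin hlarge
  classical
  have H : Sg S (F + 1) m := ⟨fun n hn => hall n (by omega), hm, by omega, hmin⟩
  have hset : {n : ℕ | n ∉ S} = ((Finset.Ico 0 (F + 1)).filter (fun n => ¬ n ∈ S) : Finset ℕ) := by
    ext n
    rw [Set.mem_ofPred_eq, Finset.mem_coe, Finset.mem_filter, Finset.mem_Ico]
    constructor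
    · intro hn
      refine ⟨⟨Nat.zero_le _, ?_⟩, hn⟩
      by_contra hc
      exact hn (hall n (by omega))
    · rintro ⟨-, hn⟩; exact hn
  rw [hset, Set.ncard_coe_finset] at hg
  have hcard : (elF S 0 (F + 1)).card + g = F + 1 := by
    rw [← hg]
    unfold elF
    rw [Finset.card_filter_add_card_filter_not, Nat.card_Ico]
    omega
  have hn : (elF S 0 (F + 1)).card = F + 1 - g := by omega
  have hstrict : 3 ≤ A.card → A.card ≠ m →
      (2 ^ (2 * (A.card + 3) ^ 3 + 1) + 1) * (F + 1) ≤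
        2 ^ (2 * (A.card + 3) ^ 3 + 1) * (A.card * (F + 1 - g)) := by
    intro h3 hAm
    rw [← hn]
    rcases hlarge with hl | hl
    · exact WLF.mai S (F + 1) m A H hA h3 hAm (by omega)
    · exact WLF.maq S (F + 1) m A H hA h3 hAm (by
        rw [show F + 1 + m - 1 = F + m by omega]
        exact hl)
  refine ⟨hstrict, fun hW => ?_⟩
  by_cases hm3 : m ≤ 3 * A.card
  · refine three_d H (by omega) hA hm3 ?_
    rw [hn]
    exact hW
  · rcases Nat.lt_or_ge A.card 3 with h3 | h3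
    · rcases Nat.lt_or_ge A.card 2 with h2 | h2
      · exact concl_one H hA (by omega)
      · left; omega
    · exfalso
      have h4 := two_pow_lt (hstrict h3 (by omega)) (Nat.succ_pos F)
      omega

end Pool.Agent.Results.MP_05ec03_nt.FixedEmbeddingDimension
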