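import Pool.Agent.WLG.Few
import Pool.Agent.WLW.AllL
import Pool.Agent.Helper82.Wilf.ThreeD

set_option autoImplicit false

namespace Pool.Agent.Results.MP_05ec03_nt.LargeEmbeddingDimension

open Pool.Agent.Helper60.Wilf Pool.Agent.Helper82.Wilf

/-- For every `ε > 0` there is `m₀` such that the following holds. Let `S ≠ ℕ` be a numerical
semigroup with Frobenius number `F`, genus `g`, multiplicity `m` and `d = |A|` minimal generators.
Suppose that `m₀ ≤ m` and `m ^ ε ≤ d`, or that `8 m ≤ d ^ 2`, or that at most `(d + 1) / 3` of the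
minimal generators are at most `(F + m) / 2`. If `d ≠ m`, then Wilf's inequality holds and is
strict. Under the same hypothesis, or if `m ≤ 3 d`, the equality `F + 1 = d (F + 1 - g)` implies that
`d = 2`, or `d = m` and the minimal generators are `m, K m + 1, …, K m + (m - 1)` for some natural
number `K`. -/
theorem result :
    ∀ ε : ℝ, 0 < ε → ∃ m₀ : ℕ, ∀ (S : AddSubmonoid ℕ) (F g m : ℕ) (A : Finset ℕ),
      F ∉ S →
      (∀ n : ℕ, F < n → n ∈ S) →
      Set.ncard {n : ℕ | n ∉ S} = g →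
      (∀ a : ℕ, a ∈ A ↔
        (a ∈ S ∧ a ≠ 0 ∧ ∀ x ∈ S, ∀ y ∈ S, x + y = a → x = 0 ∨ y = 0)) →
      m ∈ S → m ≠ 0 → (∀ x ∈ S, x ≠ 0 → m ≤ x) →
      ((m₀ ≤ m ∧ (m : ℝ) ^ ε ≤ A.card) ∨ 8 * m ≤ A.card ^ 2 ∨
          3 * (A.filter (fun a => 2 * a ≤ F + m)).card ≤ A.card + 1 →
        A.card ≠ m → F + 1 < A.card * (F + 1 - g)) ∧
      ((m₀ ≤ m ∧ (m : ℝ) ^ ε ≤ A.card) ∨ 8 * m ≤ A.card ^ 2 ∨
          3 * (A.filter (fun a => 2 * a ≤ F + m)).card ≤ A.card + 1 ∨ m ≤ 3 * A.card →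
        F + 1 = A.card * (F + 1 - g) →
          (A.card = 2 ∨
            (A.card = m ∧ ∃ K : ℕ,
              A = insert m ((Finset.Icc 1 (m - 1)).image (fun j => K * m + j))))) := by
  intro ε hε
  obtain ⟨m₀, hm₀⟩ := WLW.all_FnL ε hε
  refine ⟨m₀, ?_⟩
  intro S F g m A hF hall hg hA hm hm0 hmin
  classical
  have H : Sg S (F + 1) m := ⟨fun n hn => hall n (by omega), hm, by omega, hmin⟩
  have hset : {n : ℕ | n ∉ S} = ((Finset.Ico 0 (F + 1)).filter (fun n => ¬ n ∈ S) : Finset ℕ) := by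
    ext n
    rw [Set.mem_ofPred_eq, Finset.mem_coe, Finset.mem_filter, Finset.mem_Ico]
    constructor
    · intro hn
      refine ⟨⟨Nat.zero_le _, ?_⟩, hn⟩
      by_contra hc
      exact hn (hall n (by omega))
    · rintro ⟨-, hn⟩; exact hn
  rw [hset, Set.ncard_coe_finset] at hg
  have hcard : (elF S 0 (F + 1)).card + g = F + 1 := by
    rw [← hg]
    unfold elF
    rw [Finset.card_filter_add_card_filter_not, Nat.card_Ico]
    omega
  have hn : (elF S 0 (F + 1)).card = F + 1 - g := by omega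
  have hfil : A.filter (fun a => 2 * a ≤ F + m) = A.filter (fun a => 2 * a < F + 1 + m) := by
    apply Finset.filter_congr
    intro a _
    omega
  have hstrict : ((m₀ ≤ m ∧ (m : ℝ) ^ ε ≤ A.card) ∨ 8 * m ≤ A.card ^ 2 ∨
      3 * (A.filter (fun a => 2 * a ≤ F + m)).card ≤ A.card + 1) →
      A.card ≠ m → F + 1 < A.card * (F + 1 - g) := by
    intro hd hne
    rw [← hn]
    rcases hd with ⟨h1, h2⟩ | hd | hd
    · exact hm₀ S (F + 1) m A H hA (Nat.succ_pos F) hne h1 h2
    · exact WLG.thm_G8 H hA (Nat.succ_pos F) hne hd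
    · rw [hfil] at hd
      exact WLG.thm_I H hA (Nat.succ_pos F) hne hd
  refine ⟨hstrict, fun hd hW => ?_⟩
  by_cases hm3 : m ≤ 3 * A.card
  · refine three_d H (by omega) hA hm3 ?_
    rw [hn]
    exact hW
  · exfalso
    have h4 := hstrict (by
      rcases hd with hd | hd | hd | hd
      · exact Or.inl hd
      · exact Or.inr (Or.inl hd)
      · exact Or.inr (Or.inr hd)
      · exact absurd hd hm3) (by omega)
    omega

end Pool.Agent.Results.MP_05ec03_nt.LargeEmbeddingDimension
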